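import Pool.Agent.Lib.MP_74ab55_al.Final

/-!
# The subgroup generated by finitely many boundedly Engel elements of an ordered group
-/

set_option autoImplicit false

open scoped commutatorElement

namespace Pool.Agent.Lib.MP_74ab55_al.Ins

universe u v

/-- The lower central series of an isomorphic group. -/
theorem lcs_equiv {H : Type u} {K : Type v} [Group H] [Group K] (e : H ≃* K) {f : ℕ}
    (h : (⊤ : Subgroup K).lowerCentralSeries f = ⊥) : (⊤ : Subgroup H).lowerCentralSeries f = ⊥ := by
  have h1 : ((⊤ : Subgroup H).lowerCentralSeries f).map (e : H →* K) = ⊥ := by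
    rw [Subgroup.map_lowerCentralSeries,
      Subgroup.map_top_of_surjective (e : H →* K) e.surjective]
    exact h
  exact (Subgroup.map_eq_bot_iff_of_injective _ (f := (e : H →* K)) e.injective).1 h1

/-- The bound of `ordered_bound` for groups in every universe. -/
theorem bound_univ (m n : ℕ) : ∃ f : ℕ, ∀ (G : Type u) [Group G] [LinearOrder G] [MulLeftMono G]
    [MulRightMono G] (a : Fin m → G), (∀ i, Eng n (a i)) →
    (⊤ : Subgroup (Subgroup.closure (Set.range a))).lowerCentralSeries f = ⊥ := by
  obtain ⟨f, hf⟩ := ordered_bound m n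
  refine ⟨f, ?_⟩
  intro G _ _ _ _ a ha
  have hmem : ∀ i, a i ∈ Subgroup.closure (Set.range a) := fun i => Subgroup.subset_closure ⟨i, rfl⟩
  have hcount : Countable (Subgroup.closure (Set.range a)) := by
    have h1 : Countable (FreeGroup (Fin m)) :=
      Function.Surjective.countable (f := fun l : List (Fin m × Bool) => FreeGroup.mk l)
        (fun x => ⟨x.toWord, FreeGroup.mk_toWord⟩)
    rw [← FreeGroup.range_lift_eq_closure]
    exact Function.Surjective.countable (FreeGroup.lift a).rangeRestrict_surjective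
  obtain ⟨H, hH⟩ : ∃ H : Subgroup G, H = Subgroup.closure (Set.range a) := ⟨_, rfl⟩
  rw [← hH] at hmem hcount ⊢
  obtain ⟨K, gK, ⟨e⟩⟩ : ∃ (K : Type) (_ : Group K), Nonempty (H ≃* K) :=
    ⟨Shrink.{0} H, inferInstance, ⟨(Shrink.mulEquiv : Shrink.{0} H ≃* H).symm⟩⟩
  let _ : LinearOrder K := LinearOrder.lift' e.symm e.symm.injective
  have hle : ∀ x y : K, x ≤ y ↔ ((e.symm x : H) : G) ≤ ((e.symm y : H) : G) := fun x y => Iff.rfl
  have i1 : MulLeftMono K := ⟨fun x y z hyz => by
    rw [hle] at hyz ⊢
    rw [map_mul, map_mul, Subgroup.coe_mul, Subgroup.coe_mul]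
    exact mul_le_mul_right hyz _⟩
  have i2 : MulRightMono K := ⟨fun x y z hyz => by
    show y * x ≤ z * x
    rw [hle] at hyz ⊢
    rw [map_mul, map_mul, Subgroup.coe_mul, Subgroup.coe_mul]
    exact mul_le_mul_left hyz _⟩
  have hgen : Subgroup.closure (Set.range fun i => (⟨a i, hmem i⟩ : H)) = ⊤ := by
    have h1 : (Subgroup.closure (Set.range fun i => (⟨a i, hmem i⟩ : H))).map H.subtype =
        (⊤ : Subgroup H).map H.subtype := by
      rw [MonoidHom.map_closure, ← Set.range_comp, ← MonoidHom.range_eq_map, Subgroup.range_subtype]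
      exact hH.symm
    exact Subgroup.map_injective H.subtype_injective h1
  have h1 := hf K (fun i => e ⟨a i, hmem i⟩) (by
      have : (Set.range fun i => e ⟨a i, hmem i⟩) = (e : H →* K) '' (Set.range fun i => (⟨a i, hmem i⟩ : H)) := by
        rw [← Set.range_comp]; rfl
      rw [this, ← MonoidHom.map_closure, hgen, Subgroup.map_top_of_surjective _ e.surjective])
    (fun i => by
      have h2 : Eng n (⟨a i, hmem i⟩ : H) :=
        Eng.of_injective H.subtype (Subgroup.subtype_injective _) (ha i)
      exact h2.map_surjective (e : H →* K) e.surjective)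
  exact lcs_equiv e h1

/-- If `g` and `[h, g]` lie in a subgroup `H` with `lcs f = ⊥`, then `[h, g, …, g] = 1`. -/
theorem iterate_eq_one {G : Type u} [Group G] (H : Subgroup G) (f : ℕ)
    (hf : (⊤ : Subgroup H).lowerCentralSeries f = ⊥) (g h : G) (hg : g ∈ H) (hh : cm g h ∈ H) :
    (cm g)^[f + 1] h = 1 := by
  rw [Function.iterate_succ_apply]
  have h1 := cm_iterate_mem_lcs (⟨g, hg⟩ : H) ⟨cm g h, hh⟩ f
  rw [hf, Subgroup.mem_bot] at h1
  have h2 := map_cm_iterate H.subtype (⟨g, hg⟩ : H) ⟨cm g h, hh⟩ f
  rw [h1, map_one] at h2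
  exact h2.symm

/-- Finitely many boundedly Engel elements of an ordered group generate a nilpotent subgroup of
bounded class, all of whose elements are boundedly Engel with a uniform bound. -/
theorem main (m n : ℕ) : ∃ c : ℕ, ∀ (G : Type u) [Group G] [LinearOrder G] [MulLeftMono G]
    [MulRightMono G] (a : Fin m → G),
    (∀ i : Fin m, ∀ x : G, (fun y : G => y⁻¹ * (a i)⁻¹ * y * a i)^[n] x = 1) →
    Group.IsNilpotent (Subgroup.closure (Set.range a)) ∧
    Group.nilpotencyClass (Subgroup.closure (Set.range a)) ≤ c ∧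
    ∀ g ∈ Subgroup.closure (Set.range a), ∀ x : G,
      (fun y : G => y⁻¹ * g⁻¹ * y * g)^[c] x = 1 := by
  classical
  obtain ⟨f, hf⟩ := bound_univ.{u} m n
  obtain ⟨k, hk⟩ := bound_univ.{u} (m + m) n
  refine ⟨max f (k + 1), ?_⟩
  intro G _ _ _ _ a ha
  have ha' : ∀ i, Eng n (a i) := ha
  have h1 := hf G a ha'
  have hnil : Group.IsNilpotent (Subgroup.closure (Set.range a)) := by
    rw [Subgroup.nilpotent_iff_lowerCentralSeries]
    exact ⟨f, h1⟩
  refine ⟨hnil, ?_, ?_⟩
  · rw [← Subgroup.lowerCentralSeries_length_eq_nilpotencyClass]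
    exact (Nat.find_min' _ h1).trans (le_max_left _ _)
  · intro g hg
    have hE : Eng (k + 1) g := by
      intro h
      let b : Fin (m + m) → G := Fin.append a (fun i => h⁻¹ * a i * h)
      have hb : ∀ i, Eng n (b i) := by
        intro i
        refine Fin.addCases (fun j => ?_) (fun j => ?_) i
        · rw [show b (Fin.castAdd m j) = a j from Fin.append_left _ _ j]
          exact ha' j
        · rw [show b (Fin.natAdd m j) = h⁻¹ * a j * h from Fin.append_right _ _ j]
          exact (ha' j).conj h
      have hmem : ∀ i, b i ∈ Subgroup.closure (Set.range b) := fun i =>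
        Subgroup.subset_closure ⟨i, rfl⟩
      have e1 : Subgroup.closure (Set.range a) ≤ Subgroup.closure (Set.range b) := by
        rw [Subgroup.closure_le]
        rintro _ ⟨j, rfl⟩
        have := hmem (Fin.castAdd m j)
        rwa [show b (Fin.castAdd m j) = a j from Fin.append_left _ _ j] at this
      have e2 : Subgroup.closure (Set.range a) ≤
          (Subgroup.closure (Set.range b)).comap (MulAut.conj h⁻¹).toMonoidHom := by
        rw [Subgroup.closure_le]
        rintro _ ⟨j, rfl⟩
        have := hmem (Fin.natAdd m j)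
        rw [show b (Fin.natAdd m j) = h⁻¹ * a j * h from Fin.append_right _ _ j] at this
        show (MulAut.conj h⁻¹) (a j) ∈ Subgroup.closure (Set.range b)
        rw [MulAut.conj_apply, inv_inv]
        exact this
      have h2 : h⁻¹ * g * h ∈ Subgroup.closure (Set.range b) := by
        have := e2 hg
        rw [Subgroup.mem_comap] at this
        have h3 : (MulAut.conj h⁻¹).toMonoidHom g = h⁻¹ * g * h := by
          show (MulAut.conj h⁻¹) g = _
          rw [MulAut.conj_apply, inv_inv]
        rwa [h3] at this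
      refine iterate_eq_one _ k (hk G b hb) g h (e1 hg) ?_
      have : cm g h = (h⁻¹ * g * h)⁻¹ * g := by
        simp [cm, mul_assoc]
      rw [this]
      exact mul_mem (inv_mem h2) (e1 hg)
    exact hE.mono (le_max_right _ _)

end Pool.Agent.Lib.MP_74ab55_al.Ins
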